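import Mathlib

/-!
# Many maximally repeated patterns

For `k ≥ 2` we build a set `X k` of at most `k * (k + 1)` reals with at least `2 ^ (k - 1) - 1` pairwise
non-translate maximally repeated patterns: `X k` is the union of the translates by `t i` of
`{0, L} ∪ {j + 1 : j < k, j ≠ i}`.
-/

set_option autoImplicit false

namespace Pool.Agent.U694.MRP

open Finset

/-- the translation vectors -/
noncomputable def t (k i : ℕ) : ℝ := (k + 1) * 4 ^ i

/-- the long difference -/
noncomputable def L (k : ℕ) : ℝ := 4 * t k k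

lemma t_ge (k i : ℕ) : (k : ℝ) + 1 ≤ t k i := by
  unfold t
  have h : (1 : ℝ) ≤ 4 ^ i := one_le_pow₀ (by norm_num)
  have hk : (0 : ℝ) ≤ k := Nat.cast_nonneg k
  nlinarith

lemma t_pos (k i : ℕ) : 0 < t k i := by
  have h := t_ge k i
  have hk : (0 : ℝ) ≤ k := Nat.cast_nonneg k
  linarith

lemma t_grow (k : ℕ) {i j : ℕ} (h : i < j) : 4 * t k i ≤ t k j := by
  unfold t
  have h1 : (4 : ℝ) ^ (i + 1) ≤ 4 ^ j := pow_le_pow_right₀ (by norm_num) h
  have hk : (0 : ℝ) ≤ k := Nat.cast_nonneg k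
  rw [pow_succ] at h1
  nlinarith

/-- the point set -/
noncomputable def X (k : ℕ) : Finset ℝ :=
  (range k).biUnion fun i =>
    insert (t k i) (insert (t k i + L k)
      (((range k).erase i).image (fun j : ℕ => t k i + ((j : ℝ) + 1))))

lemma mem_X (k : ℕ) (x : ℝ) : x ∈ X k ↔ ∃ i < k, x = t k i ∨ x = t k i + L k ∨
    ∃ j < k, j ≠ i ∧ x = t k i + ((j : ℝ) + 1) := by
  unfold X
  simp only [mem_biUnion, mem_range, mem_insert, mem_image, mem_erase]
  constructor
  · rintro ⟨i, hi, h⟩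
    refine ⟨i, hi, ?_⟩
    rcases h with h | h | ⟨j, ⟨hji, hj⟩, h⟩
    · exact Or.inl h
    · exact Or.inr (Or.inl h)
    · exact Or.inr (Or.inr ⟨j, hj, hji, h.symm⟩)
  · rintro ⟨i, hi, h⟩
    refine ⟨i, hi, ?_⟩
    rcases h with h | h | ⟨j, hj, hji, h⟩
    · exact Or.inl h
    · exact Or.inr (Or.inl h)
    · exact Or.inr (Or.inr ⟨j, ⟨hji, hj⟩, h.symm⟩)

lemma card_X (k : ℕ) : (X k).card ≤ k * (k + 1) := by
  unfold X
  refine le_trans card_biUnion_le ?_
  refine le_trans (sum_le_card_nsmul _ _ (k + 1) ?_) ?_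
  · intro i hi
    have hi' := mem_range.1 hi
    refine le_trans (card_insert_le _ _) ?_
    have h2 := card_insert_le (t k i + L k)
      (((range k).erase i).image (fun j : ℕ => t k i + ((j : ℝ) + 1)))
    have h3 : (((range k).erase i).image (fun j : ℕ => t k i + ((j : ℝ) + 1))).card ≤ k - 1 := by
      refine le_trans card_image_le ?_
      rw [card_erase_of_mem hi, card_range]
    omega
  · simp

/-- the patterns -/
noncomputable def A (k : ℕ) (J : Finset ℕ) : Finset ℝ :=
  insert (t k 0) (insert (t k 0 + L k)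
    (((range k) \ (insert 0 J)).image (fun j : ℕ => t k 0 + ((j : ℝ) + 1))))

lemma mem_A (k : ℕ) (J : Finset ℕ) (x : ℝ) : x ∈ A k J ↔ x = t k 0 ∨ x = t k 0 + L k ∨
    ∃ j < k, j ≠ 0 ∧ j ∉ J ∧ x = t k 0 + ((j : ℝ) + 1) := by
  unfold A
  simp only [mem_insert, mem_image, mem_sdiff, mem_range, not_or]
  constructor
  · rintro (h | h | ⟨j, ⟨hj, hj0, hjJ⟩, h⟩)
    · exact Or.inl h
    · exact Or.inr (Or.inl h)
    · exact Or.inr (Or.inr ⟨j, hj, hj0, hjJ, h.symm⟩)
  · rintro (h | h | ⟨j, hj, hj0, hjJ, h⟩)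
    · exact Or.inl h
    · exact Or.inr (Or.inl h)
    · exact Or.inr (Or.inr ⟨j, ⟨hj, hj0, hjJ⟩, h.symm⟩)

lemma core (k : ℕ) {i1 i2 a a' : ℕ} (h21 : i2 < i1) (e : ℝ) (he1 : -k ≤ e) (he2 : e ≤ k)
    (h : t k i1 - t k i2 = t k a - t k a' + e) : a = i1 ∧ a' = i2 ∧ e = 0 := by
  have hk : (0 : ℝ) ≤ k := Nat.cast_nonneg k
  have g0 := t_grow k h21
  have p1 := t_ge k i1
  have p2 := t_ge k i2
  have p3 := t_ge k a
  have p4 := t_ge k a'
  have ha : a = i1 := by
    rcases lt_trichotomy a i1 with h1 | h1 | h1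
    · exfalso
      have g1 := t_grow k h1
      linarith
    · exact h1
    · exfalso
      have g1 := t_grow k h1
      rcases lt_trichotomy a' a with h2 | h2 | h2
      · have g2 := t_grow k h2
        linarith
      · subst h2
        linarith
      · have g2 := t_grow k h2
        linarith
  subst ha
  have ha' : a' = i2 := by
    rcases lt_trichotomy a' i2 with h1 | h1 | h1
    · exfalso
      have g1 := t_grow k h1
      linarith
    · exact h1
    · exfalso
      have g1 := t_grow k h1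
      linarith
  subst ha'
  exact ⟨rfl, rfl, by linarith⟩

/-- symmetric form for two translates -/
lemma two (k : ℕ) {i1 i2 : ℕ} (hi1 : i1 < k) (h21 : i2 < i1) (b : ℝ)
    (h1 : t k i1 + b ∈ X k) (h2 : t k i2 + b ∈ X k) :
    b = 0 ∨ b = L k ∨ ∃ j < k, j ≠ i1 ∧ j ≠ i2 ∧ b = (j : ℝ) + 1 := by
  have hk : (0 : ℝ) ≤ k := Nat.cast_nonneg k
  rw [mem_X] at h1 h2
  obtain ⟨a, ha, h1⟩ := h1
  obtain ⟨a', ha', h2⟩ := h2
  have gi1 := t_grow k hi1
  have gi2 := t_grow k (h21.trans hi1)
  have ga := t_grow k ha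
  have ga' := t_grow k ha'
  have p1 := t_ge k i1
  have p2 := t_ge k i2
  have p3 := t_ge k a
  have p4 := t_ge k a'
  have pk := t_ge k k
  have hL : L k = 4 * t k k := rfl
  rcases h1 with h1 | h1 | ⟨j, hj, hja, h1⟩ <;> rcases h2 with h2 | h2 | ⟨j', hj', hja', h2⟩
  · obtain ⟨e1, e2, e3⟩ := core k h21 0 (by linarith) (by linarith)
      (a := a) (a' := a') (by linarith)
    subst e1
    left; linarith
  · exfalso; linarith
  · have hj'1 : ((j' : ℝ) + 1) ≤ k := by exact_mod_cast hj'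
    have hj'0 : (0 : ℝ) ≤ j' := Nat.cast_nonneg _
    obtain ⟨e1, e2, e3⟩ := core k h21 (0 - ((j' : ℝ) + 1)) (by linarith) (by linarith)
      (a := a) (a' := a') (by linarith)
    exfalso; linarith
  · exfalso; linarith
  · obtain ⟨e1, e2, e3⟩ := core k h21 0 (by linarith) (by linarith)
      (a := a) (a' := a') (by linarith)
    subst e1
    right; left; linarith
  · exfalso
    have hj'1 : ((j' : ℝ) + 1) ≤ k := by exact_mod_cast hj'
    linarith
  · have hj1 : ((j : ℝ) + 1) ≤ k := by exact_mod_cast hj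
    have hj0 : (0 : ℝ) ≤ j := Nat.cast_nonneg _
    obtain ⟨e1, e2, e3⟩ := core k h21 (((j : ℝ) + 1) - 0) (by linarith) (by linarith)
      (a := a) (a' := a') (by linarith)
    exfalso; linarith
  · exfalso
    have hj1 : ((j : ℝ) + 1) ≤ k := by exact_mod_cast hj
    linarith
  · have hj1 : ((j : ℝ) + 1) ≤ k := by exact_mod_cast hj
    have hj0 : (0 : ℝ) ≤ j := Nat.cast_nonneg _
    have hj'1 : ((j' : ℝ) + 1) ≤ k := by exact_mod_cast hj'
    have hj'0 : (0 : ℝ) ≤ j' := Nat.cast_nonneg _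
    obtain ⟨e1, e2, e3⟩ := core k h21 (((j : ℝ) + 1) - ((j' : ℝ) + 1)) (by linarith) (by linarith)
      (a := a) (a' := a') (by linarith)
    subst e1
    subst e2
    have hjj : j = j' := by
      have : (j : ℝ) = j' := by linarith
      exact_mod_cast this
    subst hjj
    right; right
    exact ⟨j, hj, hja, hja', by linarith⟩

lemma L_gt (k : ℕ) : (k : ℝ) + 1 < L k := by
  have pk := t_ge k k
  have hk : (0 : ℝ) ≤ k := Nat.cast_nonneg k
  have hL : L k = 4 * t k k := rfl
  linarith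

/-- all translates by `t j - t 0`, `j ∈ J ∪ {0}`, of the pattern lie in `X`. -/
lemma A_sub (k : ℕ) (J : Finset ℕ) (i : ℕ) (hi : i < k) (hiJ : i = 0 ∨ i ∈ J) :
    (A k J).image (· + (t k i - t k 0)) ⊆ X k := by
  intro x hx
  rw [mem_image] at hx
  obtain ⟨y, hy, rfl⟩ := hx
  rw [mem_A] at hy
  rw [mem_X]
  refine ⟨i, hi, ?_⟩
  rcases hy with h | h | ⟨j, hj, hj0, hjJ, h⟩
  · left; rw [h]; ring
  · right; left; rw [h]; ring
  · right; right
    refine ⟨j, hj, ?_, by rw [h]; ring⟩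
    rintro rfl
    rcases hiJ with h0 | h0
    · exact hj0 h0
    · exact hjJ h0

lemma A_le (k : ℕ) (J : Finset ℕ) {x : ℝ} (hx : x ∈ A k J) : t k 0 ≤ x ∧ x ≤ t k 0 + L k := by
  have hL := L_gt k
  have hk : (0 : ℝ) ≤ k := Nat.cast_nonneg k
  rw [mem_A] at hx
  rcases hx with h | h | ⟨j, hj, hj0, hjJ, h⟩
  · constructor <;> linarith
  · constructor <;> linarith
  · have hj1 : ((j : ℝ) + 1) ≤ k := by exact_mod_cast hj
    have hj0 : (0 : ℝ) ≤ j := Nat.cast_nonneg _
    constructor <;> linarith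

lemma A_mem_iff (k : ℕ) (J : Finset ℕ) {j : ℕ} (hj : j < k) (hj0 : j ≠ 0) :
    t k 0 + ((j : ℝ) + 1) ∈ A k J ↔ j ∉ J := by
  have hL := L_gt k
  have hk : (0 : ℝ) ≤ k := Nat.cast_nonneg k
  have hj1 : ((j : ℝ) + 1) ≤ k := by exact_mod_cast hj
  have hj0' : (0 : ℝ) ≤ j := Nat.cast_nonneg _
  rw [mem_A]
  constructor
  · rintro (h | h | ⟨m, hm, hm0, hmJ, h⟩)
    · exfalso; linarith
    · exfalso; linarith
    · have : (j : ℝ) = m := by linarith
      have : j = m := by exact_mod_cast this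
      rw [this]; exact hmJ
  · intro h
    exact Or.inr (Or.inr ⟨j, hj, hj0, h, rfl⟩)

theorem count (k : ℕ) (hk : 2 ≤ k) : ∃ S : Finset (Finset ℝ),
    (∀ A ∈ S,
        A.Nonempty ∧ A ⊆ X k ∧
        (∃ t : ℝ, t ≠ 0 ∧ A.image (· + t) ⊆ X k) ∧
        (∀ B : Finset ℝ, A ⊂ B →
          ¬ (∀ t : ℝ, A.image (· + t) ⊆ X k → B.image (· + t) ⊆ X k))) ∧
    (∀ A ∈ S, ∀ B ∈ S, ∀ t : ℝ, B = A.image (· + t) → A = B) ∧
    2 ^ (k - 1) - 1 ≤ S.card := by
  classical
  refine ⟨(((range (k - 1)).powerset.erase ∅).image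
    (fun J => A k (J.image (· + 1)))), ?_, ?_, ?_⟩
  · intro P hP
    rw [mem_image] at hP
    obtain ⟨J, hJ, rfl⟩ := hP
    rw [mem_erase, mem_powerset] at hJ
    obtain ⟨hJ0, hJ⟩ := hJ
    obtain ⟨j0, hj0⟩ := Finset.nonempty_iff_ne_empty.2 hJ0
    have hj0' := mem_range.1 (hJ hj0)
    refine ⟨⟨t k 0, by rw [mem_A]; exact Or.inl rfl⟩, ?_, ?_, ?_⟩
    · have := A_sub k (J.image (· + 1)) 0 (by omega) (Or.inl rfl)
      simpa using this
    · refine ⟨t k (j0 + 1) - t k 0, ?_, A_sub k _ _ (by omega)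
        (Or.inr (mem_image_of_mem _ hj0))⟩
      have g := t_grow k (Nat.succ_pos j0)
      have p := t_pos k 0
      simp only [Nat.succ_eq_add_one] at g
      intro h0
      linarith
    · intro B hB hall
      rw [Finset.ssubset_iff_of_subset hB.1] at hB
      obtain ⟨b, hbB, hbA⟩ := hB
      apply hbA
      have key : ∀ i < k, (i = 0 ∨ i ∈ J.image (· + 1)) → t k i + (b - t k 0) ∈ X k := by
        intro i hi hiJ
        have h1 := hall (t k i - t k 0) (A_sub k _ i hi hiJ)
        have h2 : b + (t k i - t k 0) ∈ B.image (· + (t k i - t k 0)) := mem_image_of_mem _ hbB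
        have h3 := h1 h2
        have h4 : t k i + (b - t k 0) = b + (t k i - t k 0) := by ring
        rw [h4]; exact h3
      rw [mem_A]
      have k0 := key 0 (by omega) (Or.inl rfl)
      have k1 := key (j0 + 1) (by omega) (Or.inr (mem_image_of_mem _ hj0))
      rcases two k (by omega) (Nat.succ_pos j0) _ k1 k0 with h | h | ⟨j, hj, _, hj0', h⟩
      · left; linarith
      · right; left; linarith
      · right; right
        refine ⟨j, hj, hj0', ?_, by linarith⟩
        intro hjJ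
        have kj := key j hj (Or.inr hjJ)
        rcases two k hj (Nat.pos_of_ne_zero hj0') _ kj k0 with h' | h' | ⟨m, hm, hmj, _, h'⟩
        · have hj0 : (0 : ℝ) ≤ j := Nat.cast_nonneg _
          linarith
        · have hL := L_gt k
          have hj1 : ((j : ℝ) + 1) ≤ k := by exact_mod_cast hj
          linarith
        · apply hmj
          have : (m : ℝ) = j := by linarith
          exact_mod_cast this
  · intro P hP Q hQ s hs
    rw [mem_image] at hP hQ
    obtain ⟨J, -, rfl⟩ := hP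
    obtain ⟨K, -, rfl⟩ := hQ
    have m0 : t k 0 ∈ A k (J.image (· + 1)) := by rw [mem_A]; exact Or.inl rfl
    have m1 : t k 0 + L k ∈ A k (J.image (· + 1)) := by rw [mem_A]; exact Or.inr (Or.inl rfl)
    have n0 : t k 0 + s ∈ A k (K.image (· + 1)) := by rw [hs]; exact mem_image_of_mem _ m0
    have n1 : t k 0 + L k + s ∈ A k (K.image (· + 1)) := by rw [hs]; exact mem_image_of_mem _ m1
    have a0 := (A_le k _ n0).1
    have a1 := (A_le k _ n1).2
    have hs0 : s = 0 := by linarith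
    rw [hs, hs0]
    simp
  · rw [card_image_of_injOn]
    · rw [card_erase_of_mem (by simp), card_powerset, card_range]
    · intro J hJ K hK hJK
      simp only at hJK
      rw [mem_coe, mem_erase, mem_powerset] at hJ hK
      ext j
      have hcase : j + 1 < k ∨ k ≤ j + 1 := by omega
      rcases hcase with hjk | hjk
      · have e1 := A_mem_iff k (J.image (· + 1)) hjk (Nat.succ_ne_zero j)
        have e2 := A_mem_iff k (K.image (· + 1)) hjk (Nat.succ_ne_zero j)
        rw [hJK] at e1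
        have e3 := e1.symm.trans e2
        have f1 : (j + 1 ∈ J.image (· + 1)) ↔ j ∈ J := by simp
        have f2 : (j + 1 ∈ K.image (· + 1)) ↔ j ∈ K := by simp
        rw [f1, f2] at e3
        exact not_iff_not.1 e3
      · constructor
        · intro h
          have := mem_range.1 (hJ.2 h)
          omega
        · intro h
          have := mem_range.1 (hK.2 h)
          omega

lemma growth (C : ℕ) : (C + 21) ^ 3 ≤ 2 ^ (C + 19) := by
  induction C with
  | zero => norm_num
  | succ n ih =>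
    have h1 : (n + 1 + 21) ^ 3 ≤ 2 * (n + 21) ^ 3 := by nlinarith [Nat.zero_le n, Nat.zero_le (n ^ 2)]
    have h2 : 2 ^ (n + 1 + 19) = 2 * 2 ^ (n + 19) := by ring
    omega

end Pool.Agent.U694.MRP
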